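import Pool.Agent.Y278.MK.Stm

/-!
# An uncountable subset of the plane contains a nonempty subset without isolated points
-/

set_option autoImplicit false

open Set TopologicalSpace

namespace Pool.Agent.Y686.MK

theorem cnt_thm : Pool.Agent.Y278.MK.S_CNT := by
  intro U hU
  set B := countableBasis (ℝ × ℝ) with hB
  have hBc : B.Countable := countable_countableBasis _
  have hBb : IsTopologicalBasis B := isBasis_countableBasis _
  let U' : Set (ℝ × ℝ) := {u | u ∈ U ∧ ∀ V ∈ B, u ∈ V → ¬ (V ∩ U).Countable}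
  have hsub : U \ U' ⊆ ⋃ V ∈ {V | V ∈ B ∧ (V ∩ U).Countable}, V ∩ U := by
    intro u hu
    have h1 : ¬ (u ∈ U ∧ ∀ V ∈ B, u ∈ V → ¬ (V ∩ U).Countable) := hu.2
    have h2 := hu.1
    push Not at h1
    obtain ⟨V, hV, huV, hc⟩ := h1 h2
    exact mem_biUnion (show V ∈ {V | V ∈ B ∧ (V ∩ U).Countable} from ⟨hV, hc⟩) ⟨huV, h2⟩
  have hdiff : (U \ U').Countable := by
    refine Countable.mono hsub ?_
    refine Countable.biUnion (hBc.mono fun V hV => hV.1) fun V hV => hV.2
  have hU' : ¬ U'.Countable := by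
    intro h
    refine hU ((h.union hdiff).mono ?_)
    intro u hu
    by_cases h1 : u ∈ U'
    · exact Or.inl h1
    · exact Or.inr ⟨hu, h1⟩
  refine ⟨U', fun u hu => hu.1, ?_, ?_⟩
  · by_contra h
    rw [not_nonempty_iff_eq_empty] at h
    exact hU' (by rw [h]; exact countable_empty)
  · intro u hu ε hε
    have hopen : IsOpen (Metric.ball u ε) := Metric.isOpen_ball
    obtain ⟨V, hV, huV, hVs⟩ := hBb.exists_subset_of_mem_open (Metric.mem_ball_self hε) hopen
    have h1 : ¬ (V ∩ U).Countable := hu.2 V hV huV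
    have h2 : ¬ (V ∩ U').Countable := by
      intro h
      refine h1 ((h.union hdiff).mono ?_)
      intro x hx
      by_cases h3 : x ∈ U'
      · exact Or.inl ⟨hx.1, h3⟩
      · exact Or.inr ⟨hx.2, h3⟩
    have h3 : ∃ v ∈ V ∩ U', v ≠ u := by
      by_contra h
      push Not at h
      exact h2 ((countable_singleton u).mono fun v hv => h v hv)
    obtain ⟨v, hv, hne⟩ := h3
    refine ⟨v, hv.2, hne, ?_⟩
    have h4 : dist v u < ε := hVs hv.1
    rw [Prod.dist_eq, max_lt_iff, Real.dist_eq, Real.dist_eq] at h4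
    exact h4

end Pool.Agent.Y686.MK
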